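import Pool.Agent.H9.K2.Stmts
import Pool.Agent.H34.KA.EXI

/-!
# Existence of near-maximisers in the class `(a, R)`
-/

set_option autoImplicit false

namespace Pool.KA

open Finset Real
open Pool.Agent.H49.Ent Pool.Agent.H32.Dense Pool.STK

lemma aex_dir {m J : ℕ} (F : Fam m J) :
    CH F.p (F.D J) F.Z ≤ m * (((J : ℝ) + 3) * Real.log 2) := by
  have h1 := CH_le_vec F.isLaw.nonneg F.isLaw.sum_one (F.D J) F.Z (fun _ => 2 * 2 ^ J + 1) (by
    intro ω ω' _ _ _ k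
    have a1 := F.dir ω k
    have a2 := F.dir ω' k
    have b1 := Int.floor_le ((2 : ℝ) ^ J * F.d ω k)
    have b2 := Int.lt_floor_add_one ((2 : ℝ) ^ J * F.d ω k)
    have b3 := Int.floor_le ((2 : ℝ) ^ J * F.d ω' k)
    have b4 := Int.lt_floor_add_one ((2 : ℝ) ^ J * F.d ω' k)
    have hD : ∀ w, F.D J w k = ⌊(2 : ℝ) ^ J * F.d w k⌋ := fun w => rfl
    rw [hD, hD]
    push_cast
    have hp : (0 : ℝ) < 2 ^ J := by positivity
    have c1 : |(2 : ℝ) ^ J * F.d ω k| ≤ 2 ^ J := by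
      rw [abs_mul, abs_of_pos hp]
      nlinarith
    have c2 : |(2 : ℝ) ^ J * F.d ω' k| ≤ 2 ^ J := by
      rw [abs_mul, abs_of_pos hp]
      nlinarith
    rw [abs_le] at c1 c2 ⊢
    constructor <;> linarith [c1.1, c1.2, c2.1, c2.2])
  rw [Ex_const F.isLaw.sum_one] at h1
  have h2 : Real.log (2 * (2 * 2 ^ J + 1) + 1) ≤ ((J : ℝ) + 3) * Real.log 2 := by
    have h3 : (2 : ℝ) * (2 * 2 ^ J + 1) + 1 ≤ 2 ^ (J + 3) := by
      have : (1 : ℝ) ≤ 2 ^ J := one_le_pow₀ (by norm_num)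
      rw [pow_add]
      linarith
    have h4 := Real.log_le_log (by positivity) h3
    rw [Real.log_pow] at h4
    push_cast at h4
    exact h4
  exact h1.trans (mul_le_mul_of_nonneg_left h2 (Nat.cast_nonneg m))

theorem aex_thm (hGRO : GROStmt) : AEXStmt := by
  intro m hKP
  obtain ⟨C, hC, hG⟩ := hGRO m
  have hlog : 0 < Real.log 2 := Real.log_pos (by norm_num)
  have hGa : ∀ {J : ℕ} (F : Fam m J) (a : ℝ),
      F.Ga a = F.V J - (a - 1) * CH F.p (F.X J) F.W := by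
    intro J F a
    unfold Fam.Ga Fam.V
    ring
  unfold KP at hKP
  push Not at hKP
  obtain ⟨ε, hε, hKP⟩ := hKP
  obtain ⟨L, hL⟩ : ∃ L : ℝ, L = m * Real.log 2 := ⟨_, rfl⟩
  have hL0 : 0 ≤ L := by rw [hL]; positivity
  refine ⟨1 + ε / (2 * (4 * L + 1)), by
    have : 0 < ε / (2 * (4 * L + 1)) := by positivity
    linarith, fun a ha1 ha2 => ?_⟩
  have hup : ∀ x y, x ≤ y → UBa m a x → UBa m a y := by
    intro x y hxy h η hη
    obtain ⟨θ, hθ, J₀, h1⟩ := h η hη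
    refine ⟨θ, hθ, J₀, fun J hJ F hF => (h1 J hJ F hF).trans ?_⟩
    have : (0 : ℝ) ≤ J := Nat.cast_nonneg J
    nlinarith
  have hcl : ∀ x, (∀ y > x, UBa m a y) → UBa m a x := by
    intro x h η hη
    obtain ⟨θ, hθ, J₀, h1⟩ := h (x + η / 2) (by linarith) (η / 2) (by linarith)
    exact ⟨θ, hθ, J₀, fun J hJ F hF => (h1 J hJ F hF).trans (le_of_eq (by ring))⟩
  have hone : UBa m a (m * Real.log 2) := by
    intro η hη
    obtain ⟨J₀, hJ₀⟩ := exists_nat_ge (C / η)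
    refine ⟨1, one_pos, J₀, fun J hJ F _ => ?_⟩
    have h1 := (hG J F).2.2 J
    have h2 : C ≤ η * J := by
      have h3 : (J₀ : ℝ) ≤ J := by exact_mod_cast hJ
      have h4 : C / η ≤ J := hJ₀.trans h3
      rw [div_le_iff₀ hη] at h4
      linarith
    have h5 : 0 ≤ CH F.p (F.X J) F.W := CH_nonneg F.isLaw.nonneg _ _
    rw [hGa]
    nlinarith
  have hzero : ¬ UBa m a 0 := by
    intro h
    obtain ⟨θ, hθ, J₀, h1⟩ := h (ε / 4) (by linarith)
    obtain ⟨J, hJ, F, hF, hV⟩ := hKP θ hθ (J₀ + 1)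
    have h2 := h1 J (by omega) F hF
    rw [hGa] at h2
    have hJ1 : (1 : ℝ) ≤ J := by exact_mod_cast (by omega : 1 ≤ J)
    have h3 := aex_dir F
    have h4 : CH F.p (F.X J) F.W ≤ CH F.p (F.D J) F.Z := by
      have : F.V J = CH F.p (F.D J) F.Z - CH F.p (F.X J) F.W := by
        unfold Fam.V
        ring
      rw [this] at hV
      nlinarith
    have h5 : CH F.p (F.X J) F.W ≤ (4 * L + 1) * J := by
      have : (m : ℝ) * (((J : ℝ) + 3) * Real.log 2) = L * (J + 3) := by rw [hL]; ring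
      rw [this] at h3
      nlinarith
    have h6 : (a - 1) * CH F.p (F.X J) F.W ≤ ε / 2 * J := by
      have h7 : a - 1 ≤ ε / (2 * (4 * L + 1)) := by linarith
      have h8 : 0 ≤ CH F.p (F.X J) F.W := CH_nonneg F.isLaw.nonneg _ _
      calc (a - 1) * CH F.p (F.X J) F.W ≤ ε / (2 * (4 * L + 1)) * ((4 * L + 1) * J) :=
            mul_le_mul h7 h5 h8 (by positivity)
        _ = ε / 2 * J := by field_simp
    nlinarith
  obtain ⟨R, hR, hUR, hRs⟩ := exi_inf hup hcl ⟨_, hone⟩ hzero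
  refine ⟨R, hR, ?_, hUR, ?_⟩
  · by_contra hc
    exact hRs _ (not_le.mp hc) hone
  · intro η hη θ hθ J₀
    have hn := hRs (R - η) (by linarith)
    unfold UBa at hn
    push Not at hn
    obtain ⟨η', hη', hn⟩ := hn
    obtain ⟨J, hJ, F, hF, h1⟩ := hn θ hθ J₀
    refine ⟨J, hJ, F, hF, ?_⟩
    have : (0 : ℝ) ≤ J := Nat.cast_nonneg J
    nlinarith

end Pool.KA
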